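import Pool.Agent.H61.LVP.SPL
import Pool.Agent.H60.LVE.DEC
import Pool.Agent.H60.LVE.LAG
import Pool.Agent.H51.LVE.PAR
import Pool.Agent.H23.LVE.SUB

/-!
# The derivative test of order r for polynomials (helper30)

If every point of the interval has some `r` between `1` and `d` with the Hasse derivative of
order `r` at least `H ^ r` in absolute value, then the integral is at most `C / H`.
-/

set_option autoImplicit false

open Finset MeasureTheory
open scoped Polynomial

namespace Pool.Agent.H30.EF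

open Pool.Agent.H24.CL Pool.Agent.H24.LV Pool.Agent.H50.LV

/-- the polynomial whose sign compares the Hasse derivative of order `r` with `H ^ r` -/
noncomputable def Qr (P : ℝ[X]) (H : ℝ) (r : ℕ) : ℝ[X] :=
  (Polynomial.hasseDeriv r P) ^ 2 - Polynomial.C (H ^ r) ^ 2

theorem Qr_deg (P : ℝ[X]) (H : ℝ) (r d : ℕ) (h : P.natDegree ≤ d) :
    (Qr P H r).natDegree ≤ 2 * d := by
  unfold Qr
  refine (Polynomial.natDegree_sub_le _ _).trans (max_le ?_ ?_)
  · refine (Polynomial.natDegree_pow_le).trans ?_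
    have := Polynomial.natDegree_hasseDeriv_le P r
    have h2 : (Polynomial.hasseDeriv r P).natDegree ≤ d := this.trans (by omega)
    exact Nat.mul_le_mul_left 2 h2
  · rw [← Polynomial.C_pow, Polynomial.natDegree_C]
    exact Nat.zero_le _

theorem Qr_nonneg_iff (P : ℝ[X]) (H : ℝ) (hH : 0 < H) (r : ℕ) (y : ℝ) :
    0 ≤ (Qr P H r).eval y ↔ H ^ r ≤ |(Polynomial.hasseDeriv r P).eval y| := by
  have h0 : (0 : ℝ) ≤ H ^ r := by positivity
  unfold Qr
  rw [Polynomial.eval_sub, Polynomial.eval_pow, Polynomial.eval_pow, Polynomial.eval_C,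
    sub_nonneg, sq_le_sq, abs_of_nonneg h0]

/-- on a piece of constant signs one order works everywhere -/
theorem one_order (d : ℕ) (P : ℝ[X]) (a b H : ℝ) (hab : a < b) (hH : 0 < H)
    (hs : ∀ r, 1 ≤ r → r ≤ d → (∀ y ∈ Set.Icc a b, 0 ≤ (Qr P H r).eval y) ∨
      ∀ y ∈ Set.Icc a b, (Qr P H r).eval y ≤ 0)
    (h : ∀ y ∈ Set.Icc a b, ∃ r : ℕ, 1 ≤ r ∧ r ≤ d ∧
      H ^ r ≤ |(Polynomial.hasseDeriv r P).eval y|) :
    ∃ r : ℕ, 1 ≤ r ∧ r ≤ d ∧ ∀ y ∈ Set.Icc a b,
      H ^ r ≤ |(Polynomial.hasseDeriv r P).eval y| := by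
  classical
  obtain ⟨y, hy, hyF⟩ := (Set.Icc_infinite hab).exists_notMem_finset
    ((Icc 1 d).biUnion fun r => (Qr P H r).roots.toFinset)
  obtain ⟨r, hr1, hrd, hr⟩ := h y hy
  refine ⟨r, hr1, hrd, ?_⟩
  rcases hs r hr1 hrd with hs1 | hs1
  · intro z hz
    exact (Qr_nonneg_iff P H hH r z).1 (hs1 z hz)
  · have h1 := (Qr_nonneg_iff P H hH r y).2 hr
    have h2 : (Qr P H r).eval y = 0 := le_antisymm (hs1 y hy) h1
    have h3 : Qr P H r = 0 := by
      by_contra hne
      apply hyF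
      rw [Finset.mem_biUnion]
      refine ⟨r, Finset.mem_Icc.2 ⟨hr1, hrd⟩, ?_⟩
      rw [Multiset.mem_toFinset, Polynomial.mem_roots hne]
      exact h2
    intro z _
    apply (Qr_nonneg_iff P H hH r z).1
    rw [h3, Polynomial.eval_zero]

/-- the bound on a piece of constant signs -/
theorem piece (d : ℕ) : ∃ C : ℝ, 1 ≤ C ∧ ∀ (P : ℝ[X]) (a b H : ℝ), P.natDegree ≤ d →
    -1 ≤ a → a ≤ b → b ≤ 1 → 0 < H → Sgn P a b →
    (∀ r, 1 ≤ r → r ≤ d → (∀ y ∈ Set.Icc a b, 0 ≤ (Qr P H r).eval y) ∨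
      ∀ y ∈ Set.Icc a b, (Qr P H r).eval y ≤ 0) →
    (∀ y ∈ Set.Icc a b, ∃ r : ℕ, 1 ≤ r ∧ r ≤ d ∧
      H ^ r ≤ |(Polynomial.hasseDeriv r P).eval y|) →
    ‖OP P 0 a b‖ ≤ C / H := by
  obtain ⟨C₁, hC₁, hlag⟩ := Pool.Agent.H60.LVE.pf_LAG d
  refine ⟨4 + 2 * C₁, by linarith, ?_⟩
  intro P a b H hdeg ha hab hb hH hsgn hs h
  rcases hab.eq_or_lt with he | hlt
  · subst he
    unfold OP
    rw [intervalIntegral.integral_same, norm_zero]
    positivity
  obtain ⟨r, hr1, hrd, hr⟩ := one_order d P a b H hlt hH hs h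
  rcases hr1.eq_or_lt with hr' | hr2
  · subst hr'
    obtain ⟨p, q, hp, hpq, hq, hpq', hO⟩ :=
      Pool.Agent.H61.LVP.pf_SPL P 0 a b (H / 2) hab (by positivity) hsgn
    have hpe : p = q := by
      rcases hpq.eq_or_lt with h1 | h1
      · exact h1
      · exfalso
        have h2 := hpq' h1 p ⟨le_rfl, hpq⟩
        have h3 := hr p ⟨hp, hpq.trans hq⟩
        rw [Polynomial.hasseDeriv_one, pow_one] at h3
        rw [zero_add] at h2
        linarith
    refine hO.trans ?_
    rw [hpe, sub_self, add_zero]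
    have : 2 / (H / 2) = 4 / H := by field_simp; norm_num
    rw [this]
    gcongr
    linarith
  · obtain ⟨p, q, hp, hpq, hq, hpq', hO⟩ :=
      Pool.Agent.H61.LVP.pf_SPL P 0 a b H hab hH hsgn
    refine hO.trans ?_
    have hkey : q - p ≤ 2 * C₁ / H := by
      rcases hpq.eq_or_lt with h1 | h1
      · rw [h1, sub_self]
        positivity
      have hflat := hpq' h1
      set m : ℝ := (p + q) / 2 with hm
      set ρ : ℝ := (q - p) / 2 with hρ
      have hρ0 : 0 < ρ := by rw [hρ]; linarith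
      have hmI : m ∈ Set.Icc a b := by
        constructor <;> rw [hm] <;> linarith
      set R : ℝ[X] := (Polynomial.taylor m (Polynomial.derivative P)).comp
        (Polynomial.C ρ * Polynomial.X) with hR
      have hRdeg : R.natDegree ≤ d := by
        rw [hR]
        refine (Polynomial.natDegree_comp_le).trans ?_
        rw [Polynomial.natDegree_taylor]
        have h2 : (Polynomial.derivative P).natDegree ≤ d :=
          (Polynomial.natDegree_derivative_le P).trans (by omega)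
        have h3 : (Polynomial.C ρ * Polynomial.X : ℝ[X]).natDegree ≤ 1 :=
          (Polynomial.natDegree_C_mul_le ρ Polynomial.X).trans Polynomial.natDegree_X_le
        calc _ ≤ d * 1 := Nat.mul_le_mul h2 h3
          _ = d := mul_one d
      have hRe : ∀ y ∈ Set.Icc (-1 : ℝ) 1, |R.eval y| ≤ H := by
        intro y hy
        rw [hR, Polynomial.eval_comp, Polynomial.eval_mul, Polynomial.eval_C, Polynomial.eval_X,
          Polynomial.taylor_eval]
        have h2 : ρ * y + m ∈ Set.Icc p q := by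
          have h3 : ρ * y ≤ ρ * 1 := mul_le_mul_of_nonneg_left hy.2 hρ0.le
          have h4 : ρ * (-1) ≤ ρ * y := mul_le_mul_of_nonneg_left hy.1 hρ0.le
          rw [hρ] at h3 h4 ⊢
          rw [hm]
          constructor <;> linarith
        have h5 := hflat _ h2
        rwa [zero_add] at h5
      have h2 := hlag R (-1) 1 H hRdeg le_rfl (by norm_num) le_rfl hRe (r - 1)
      obtain ⟨s, rfl⟩ : ∃ s, r = s + 1 := ⟨r - 1, by omega⟩
      have h3 : R.coeff (s + 1 - 1) =
          (((s : ℝ) + 1) * (Polynomial.hasseDeriv (s + 1) P).eval m) * ρ ^ s := by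
        rw [Nat.add_sub_cancel, hR, Polynomial.comp_C_mul_X_coeff, Polynomial.taylor_coeff]
        congr 1
        have h4 : Polynomial.hasseDeriv s (Polynomial.derivative P) =
            ((s + 1 : ℕ) : ℝ[X]) * Polynomial.hasseDeriv (s + 1) P := by
          have h5 := Polynomial.hasseDeriv_comp (R := ℝ) s 1
          have h6 := congrArg (fun f => f P) h5
          simp only [LinearMap.comp_apply, LinearMap.smul_apply] at h6
          rw [Polynomial.hasseDeriv_one, Nat.choose_succ_self_right] at h6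
          rw [h6, nsmul_eq_mul]
        rw [h4, Polynomial.eval_mul, Polynomial.eval_natCast]
        push_cast
        ring
      rw [h3] at h2
      have h4 := hr m hmI
      have hd : (1 : ℝ) ≤ (1 - -1) ^ d := one_le_pow₀ (by norm_num)
      have hs1 : (1 : ℝ) ≤ (s : ℝ) + 1 := by
        have : (0 : ℝ) ≤ s := Nat.cast_nonneg s
        linarith
      have h5 : H ^ (s + 1) * ρ ^ s ≤ C₁ * H := by
        refine le_trans ?_ h2
        rw [abs_mul, abs_mul, abs_of_nonneg (by linarith : (0 : ℝ) ≤ (s : ℝ) + 1),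
          abs_of_nonneg (by positivity : (0 : ℝ) ≤ ρ ^ s)]
        have h6 : H ^ (s + 1) ≤
            ((s : ℝ) + 1) * |(Polynomial.hasseDeriv (s + 1) P).eval m| := by
          calc H ^ (s + 1) ≤ 1 * |(Polynomial.hasseDeriv (s + 1) P).eval m| := by
                rw [one_mul]; exact h4
            _ ≤ _ := mul_le_mul_of_nonneg_right hs1 (abs_nonneg _)
        have h7 : H ^ (s + 1) * ρ ^ s ≤
            ((s : ℝ) + 1) * |(Polynomial.hasseDeriv (s + 1) P).eval m| * ρ ^ s :=
          mul_le_mul_of_nonneg_right h6 (by positivity)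
        calc H ^ (s + 1) * ρ ^ s = H ^ (s + 1) * ρ ^ s * 1 := (mul_one _).symm
          _ ≤ _ := mul_le_mul h7 hd zero_le_one (by positivity)
      have h8 : (ρ * H) ^ s ≤ C₁ := by
        apply le_of_mul_le_mul_right _ hH
        calc (ρ * H) ^ s * H = H ^ (s + 1) * ρ ^ s := by rw [mul_pow]; ring
          _ ≤ C₁ * H := h5
      have h9 : ρ * H ≤ C₁ := by
        by_contra hcon
        push Not at hcon
        have h10 : ρ * H ≤ (ρ * H) ^ s := le_self_pow₀ (by linarith) (by omega)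
        linarith
      rw [le_div_iff₀ hH]
      calc (q - p) * H = 2 * (ρ * H) := by rw [hρ]; ring
        _ ≤ 2 * C₁ := by linarith
    calc 2 / H + (q - p) ≤ 2 / H + 2 * C₁ / H := by linarith
      _ = (2 + 2 * C₁) / H := by rw [add_div]
      _ ≤ (4 + 2 * C₁) / H := by
          gcongr
          norm_num

/-- the sum over the pieces of a partition, inside a given interval -/
theorem clip (F : ℝ → ℂ) (m : ℕ) (x : ℕ → ℝ) (a b B : ℝ) (hF : Continuous F)
    (hx : Monotone x) (h0 : x 0 ≤ a) (hab : a ≤ b) (hb : b ≤ x m) (hB : 0 ≤ B)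
    (h : ∀ i < m, ∀ a' b' : ℝ, a ≤ a' → b' ≤ b → x i ≤ a' → a' ≤ b' → b' ≤ x (i + 1) →
      ‖∫ y in a'..b', F y‖ ≤ B) : ‖∫ y in a..b, F y‖ ≤ m * B := by
  have h1 := Pool.Agent.H23.LVE.pf_SUB F m (fun i => max a (min b (x i))) (fun _ => B) a b hF
    (by
      intro i j hij
      have := hx hij
      show max a (min b (x i)) ≤ max a (min b (x j))
      exact max_le_max le_rfl (min_le_min le_rfl this))
    (by
      show max a (min b (x 0)) ≤ a
      exact max_le le_rfl ((min_le_right _ _).trans h0))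
    hab
    (by
      show b ≤ max a (min b (x m))
      rw [min_eq_left hb]
      exact le_max_right _ _)
    (by
      intro i hi a' b' ha' hab' hb'
      rcases hab'.eq_or_lt with he | hlt
      · rw [he, intervalIntegral.integral_same, norm_zero]
        exact hB
      have e1 : a ≤ a' := (le_max_left _ _).trans ha'
      have e2 : b' ≤ b := hb'.trans (max_le hab (min_le_left _ _))
      have e3 : x i ≤ a' := by
        have h2 : min b (x i) ≤ a' := (le_max_right _ _).trans ha'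
        rcases min_le_iff.1 h2 with h3 | h3
        · exfalso; linarith
        · exact h3
      have e4 : b' ≤ x (i + 1) := by
        rcases le_max_iff.1 hb' with h3 | h3
        · exfalso; linarith
        · exact h3.trans (min_le_right _ _)
      exact h i hi a' b' e1 e2 e3 hab' e4)
  rw [Finset.sum_const, Finset.card_range, nsmul_eq_mul] at h1
  exact h1

/-- PCS: the derivative test of order r. -/
def T_PCS : Prop := ∀ d : ℕ, ∃ C : ℝ, 1 ≤ C ∧ ∀ (P : ℝ[X]) (a b H : ℝ), P.natDegree ≤ d →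
  -1 ≤ a → a ≤ b → b ≤ 1 → 0 < H →
  (∀ y ∈ Set.Icc a b, ∃ r : ℕ, 1 ≤ r ∧ r ≤ d ∧
    H ^ r ≤ |(Polynomial.hasseDeriv r P).eval y|) →
  ‖OP P 0 a b‖ ≤ C / H

theorem steps (d : ℕ) (C₀ : ℝ) (hC₀ : 1 ≤ C₀) (P : ℝ[X]) (H : ℝ) (hH : 0 < H)
    (hdeg : P.natDegree ≤ d)
    (hp : ∀ a b : ℝ, -1 ≤ a → a ≤ b → b ≤ 1 → Sgn P a b →
      (∀ r, 1 ≤ r → r ≤ d → (∀ y ∈ Set.Icc a b, 0 ≤ (Qr P H r).eval y) ∨
        ∀ y ∈ Set.Icc a b, (Qr P H r).eval y ≤ 0) →
      (∀ y ∈ Set.Icc a b, ∃ r : ℕ, 1 ≤ r ∧ r ≤ d ∧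
        H ^ r ≤ |(Polynomial.hasseDeriv r P).eval y|) →
      ‖OP P 0 a b‖ ≤ C₀ / H) :
    ∀ n : ℕ, ∀ a b : ℝ, -1 ≤ a → a ≤ b → b ≤ 1 → Sgn P a b →
      (∀ r, n < r → 1 ≤ r → r ≤ d → (∀ y ∈ Set.Icc a b, 0 ≤ (Qr P H r).eval y) ∨
        ∀ y ∈ Set.Icc a b, (Qr P H r).eval y ≤ 0) →
      (∀ y ∈ Set.Icc a b, ∃ r : ℕ, 1 ≤ r ∧ r ≤ d ∧
        H ^ r ≤ |(Polynomial.hasseDeriv r P).eval y|) →
      ‖OP P 0 a b‖ ≤ (4 * (d : ℝ) + 1) ^ n * (C₀ / H) := by
  intro n
  induction n with
  | zero =>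
    intro a b ha hab hb hsgn hs h
    rw [pow_zero, one_mul]
    exact hp a b ha hab hb hsgn (fun r hr1 hrd => hs r (by omega) hr1 hrd) h
  | succ n ih =>
    intro a b ha hab hb hsgn hs h
    obtain ⟨x, hx0, hx1, hxm, hxp⟩ := Pool.Agent.H51.LVE.pf_PAR (2 * d) (Qr P H (n + 1))
      (Qr P H (n + 1)) (Qr_deg P H (n + 1) d hdeg) (Qr_deg P H (n + 1) d hdeg)
    have hBn : 0 ≤ (4 * (d : ℝ) + 1) ^ n * (C₀ / H) := by positivity
    have h1 := clip (fun y => e ((0 * y + P.eval y : ℝ) : UnitAddCircle))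
      (2 * (2 * d) + 1) x a b ((4 * (d : ℝ) + 1) ^ n * (C₀ / H))
      (Pool.Agent.H60.LVE.cont_e P 0) hxm (by rw [hx0]; exact ha) hab (by rw [hx1]; exact hb)
      hBn (by
        intro i hi a' b' ha' hb' hxi hab' hxi1
        refine ih a' b' (ha.trans ha') hab' (hb'.trans hb) ?_ ?_ ?_
        · rcases hsgn with h2 | h2
          · left
            intro y hy
            exact h2 y ⟨ha'.trans hy.1, hy.2.trans hb'⟩
          · right
            intro y hy
            exact h2 y ⟨ha'.trans hy.1, hy.2.trans hb'⟩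
        · intro r hnr hr1 hrd
          rcases (Nat.succ_le_of_lt hnr).eq_or_lt with he | hlt
          · have he' : r = n + 1 := he.symm
            subst he'
            rcases (hxp i hi).1 with h2 | h2
            · left
              intro y hy
              exact h2 y ⟨hxi.trans hy.1, hy.2.trans hxi1⟩
            · right
              intro y hy
              exact h2 y ⟨hxi.trans hy.1, hy.2.trans hxi1⟩
          · rcases hs r hlt hr1 hrd with h2 | h2
            · left
              intro y hy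
              exact h2 y ⟨ha'.trans hy.1, hy.2.trans hb'⟩
            · right
              intro y hy
              exact h2 y ⟨ha'.trans hy.1, hy.2.trans hb'⟩
        · intro y hy
          exact h y ⟨ha'.trans hy.1, hy.2.trans hb'⟩)
    refine h1.trans (le_of_eq ?_)
    push_cast
    rw [pow_succ]
    ring

theorem pf_PCS : T_PCS := by
  intro d
  obtain ⟨C₀, hC₀, hpiece⟩ := piece d
  refine ⟨(4 * (d : ℝ) + 1) ^ (d + 1) * C₀, ?_, ?_⟩
  · have h1 : (1 : ℝ) ≤ (4 * (d : ℝ) + 1) ^ (d + 1) := by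
      apply one_le_pow₀
      have : (0 : ℝ) ≤ d := Nat.cast_nonneg d
      linarith
    nlinarith
  intro P a b H hdeg ha hab hb hH h
  have hst := steps d C₀ hC₀ P H hH hdeg
    (fun a b ha hab hb hsgn hs h => hpiece P a b H hdeg ha hab hb hH hsgn hs h) d
  have hDD : (DD P).natDegree ≤ 2 * d := by
    unfold DD
    refine (Polynomial.natDegree_derivative_le _).trans ?_
    have := Polynomial.natDegree_derivative_le P
    omega
  obtain ⟨x, hx0, hx1, hxm, hxp⟩ := Pool.Agent.H51.LVE.pf_PAR (2 * d) (DD P) (DD P) hDD hDD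
  have hBn : 0 ≤ (4 * (d : ℝ) + 1) ^ d * (C₀ / H) := by positivity
  have h1 := clip (fun y => e ((0 * y + P.eval y : ℝ) : UnitAddCircle))
    (2 * (2 * d) + 1) x a b ((4 * (d : ℝ) + 1) ^ d * (C₀ / H))
    (Pool.Agent.H60.LVE.cont_e P 0) hxm (by rw [hx0]; exact ha) hab (by rw [hx1]; exact hb)
    hBn (by
      intro i hi a' b' ha' hb' hxi hab' hxi1
      refine hst a' b' (ha.trans ha') hab' (hb'.trans hb) ?_ ?_ ?_
      · rcases (hxp i hi).1 with h2 | h2
        · left
          intro y hy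
          exact h2 y ⟨hxi.trans hy.1, hy.2.trans hxi1⟩
        · right
          intro y hy
          exact h2 y ⟨hxi.trans hy.1, hy.2.trans hxi1⟩
      · intro r hr _ hrd
        omega
      · intro y hy
        exact h y ⟨ha'.trans hy.1, hy.2.trans hb'⟩)
  refine h1.trans (le_of_eq ?_)
  push_cast
  rw [pow_succ]
  ring

end Pool.Agent.H30.EF
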